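import Mathlib
import Pool.Agent.H21.SN.Rho

/-!
# Coefficient functions of the contact system

`v₀ = 1 - j₀(s)/j₀(ρ)`, cut-off `χ = ((s-R₀)₊/w)³`, `w = 1/4`, `κ = χ' + χ² v₀'''`.
-/

set_option autoImplicit false

open Real Set

noncomputable section

namespace H55.SQ


/-- left end of the layer -/
def R0 : ℝ := SN.rho - 1 / 4

theorem R0_def : R0 = SN.rho - 1 / 4 := rfl

theorem R0_gt : 1210.83314 < R0 := by
  have := SN.rho_gt
  rw [R0_def]; linarith

theorem R0_lt_rho : R0 < SN.rho := by rw [R0_def]; linarith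

theorem rho_lt' : SN.rho < 1211.08315 := lt_trans SN.rho_lt (by norm_num)

/-- the base solution -/
def v0 (s : ℝ) : ℝ := 1 - (SN.rho * cos (SN.rho - s) - sin (SN.rho - s)) / s
/-- `v₀'` -/
def vp (s : ℝ) : ℝ := -(SN.rho * sin (SN.rho - s) + cos (SN.rho - s)) / s + (SN.rho * cos (SN.rho - s) - sin (SN.rho - s)) / s ^ 2
/-- `v₀''` -/
def vq (s : ℝ) : ℝ := 1 - v0 s - 2 * vp s / s
/-- `v₀'''` -/
def vr (s : ℝ) : ℝ := -vp s - 2 * vq s / s + 2 * vp s / s ^ 2

theorem hasDerivAt_v0 {s : ℝ} (hs : s ≠ 0) : HasDerivAt v0 (vp s) s := by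
  have h1 : HasDerivAt (fun s : ℝ => SN.rho - s) (-1) s := by
    simpa using (hasDerivAt_id s).const_sub SN.rho
  have h2 := h1.cos
  have h3 := h1.sin
  have h4 := (((h2.const_mul SN.rho).sub h3).div (hasDerivAt_id s) hs).const_sub 1
  refine h4.congr_deriv ?_
  simp only [vp, id_eq, Pi.sub_apply, mul_one]
  field_simp
  ring

theorem hasDerivAt_vp {s : ℝ} (hs : s ≠ 0) : HasDerivAt vp (vq s) s := by
  have h1 : HasDerivAt (fun s : ℝ => SN.rho - s) (-1) s := by
    simpa using (hasDerivAt_id s).const_sub SN.rho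
  have h2 := h1.cos
  have h3 := h1.sin
  have h4 := ((((h3.const_mul SN.rho).add h2).neg).div (hasDerivAt_id s) hs).add
    (((h2.const_mul SN.rho).sub h3).div ((hasDerivAt_id s).pow 2) (pow_ne_zero 2 hs))
  refine h4.congr_deriv ?_
  simp only [vq, v0, vp, id_eq, Pi.sub_apply, Pi.add_apply, Pi.neg_apply, Pi.pow_apply, mul_one]
  field_simp
  ring

theorem hasDerivAt_vq {s : ℝ} (hs : s ≠ 0) : HasDerivAt vq (vr s) s := by
  have h4 := ((hasDerivAt_v0 hs).const_sub 1).sub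
    (((hasDerivAt_vp hs).const_mul 2).div (hasDerivAt_id s) hs)
  refine h4.congr_deriv ?_
  simp only [vr, vq, id_eq, mul_one]
  field_simp
  ring

theorem ode (s : ℝ) (hs : s ≠ 0) : s ^ 2 * vq s + 2 * s * vp s + s ^ 2 * (v0 s - 1) = 0 := by
  simp only [vq]; field_simp; ring

theorem ode' (s : ℝ) (hs : s ≠ 0) :
    s ^ 2 * vr s + 4 * s * vq s + 2 * vp s + 2 * s * (v0 s - 1) + s ^ 2 * vp s = 0 := by
  have h := ode s hs
  have h1 : vr s = -vp s - 2 * vq s / s + 2 * vp s / s ^ 2 := rfl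
  rw [h1]
  have h2 : v0 s - 1 = -vq s - 2 * vp s / s := by simp only [vq]; ring
  rw [h2]
  field_simp
  ring

theorem v0_rho : v0 SN.rho = 0 := by
  have : SN.rho ≠ 0 := SN.rho_pos.ne'
  simp [v0, this]

theorem vp_rho : vp SN.rho = 0 := by
  have : SN.rho ≠ 0 := SN.rho_pos.ne'
  simp [vp]; field_simp; ring

theorem vq_rho : vq SN.rho = 1 := by
  simp [vq, v0_rho, vp_rho]

/-- `v₀` in terms of `sin s / s` -/
theorem v0_eq (s : ℝ) (hs : s ≠ 0) : v0 s = 1 - (sin s / s) / (sin SN.rho / SN.rho) := by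
  have h0 : SN.rho ≠ 0 := SN.rho_pos.ne'
  have h1 : sin SN.rho ≠ 0 := by
    intro h
    have h2 := SN.sin_rho
    rw [h] at h2
    have h3 : cos SN.rho = 0 := by
      rcases mul_eq_zero.mp h2.symm with h | h
      · exact absurd h h0
      · exact h
    have := sin_sq_add_cos_sq SN.rho
    rw [h, h3] at this
    norm_num at this
  have h2 : sin s = sin SN.rho * cos (SN.rho - s) - cos SN.rho * sin (SN.rho - s) := by
    rw [← sin_sub]; congr 1; ring
  have h3 : SN.rho * sin s = sin SN.rho * (SN.rho * cos (SN.rho - s) - sin (SN.rho - s)) := by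
    rw [h2]
    have := SN.sin_rho
    linear_combination sin (SN.rho - s) * this
  simp only [v0]
  have h4 : (sin s / s) / (sin SN.rho / SN.rho) = (SN.rho * sin s) / (sin SN.rho * s) := by field_simp
  rw [h4, h3]
  field_simp

section bounds

variable {s : ℝ} (hs : s ∈ Icc R0 SN.rho)
include hs

theorem s_gt : 1210.83314 < s := lt_of_lt_of_le R0_gt hs.1
theorem s_pos : 0 < s := lt_trans (by norm_num) (s_gt hs)
theorem s_lt : s < 1211.08315 := lt_of_le_of_lt hs.2 rho_lt'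
theorem sg_nonneg : 0 ≤ SN.rho - s := by linarith [hs.2]
theorem sg_le : SN.rho - s ≤ 1 / 4 := by have := hs.1; rw [R0_def] at this; linarith

theorem inv_le : 1 / s ≤ 1 / 1210 :=
  one_div_le_one_div_of_le (by norm_num) (by linarith [s_gt hs])

theorem neg_vp_eq : -vp s = SN.rho * sin (SN.rho - s) / s + (sin (SN.rho - s) - (SN.rho - s) * cos (SN.rho - s)) / s ^ 2 := by
  have := (s_pos hs).ne'
  simp only [vp]; field_simp; ring

theorem neg_vp_le : -vp s ≤ 1.0003 * (SN.rho - s) := by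
  rw [neg_vp_eq hs]
  have h0 := s_pos hs
  have h1 := sg_nonneg hs
  have h2 : sin (SN.rho - s) ≤ SN.rho - s := sin_le h1
  have h3 : 0 ≤ cos (SN.rho - s) := cos_nonneg_of_mem_Icc ⟨by linarith [pi_gt_three],
    by linarith [sg_le hs, pi_gt_three]⟩
  have h4 : SN.rho * sin (SN.rho - s) / s ≤ 1.00021 * (SN.rho - s) := by
    rw [div_le_iff₀ h0]
    have h5 : SN.rho * sin (SN.rho - s) ≤ SN.rho * (SN.rho - s) := mul_le_mul_of_nonneg_left h2 SN.rho_pos.le
    have h6 : SN.rho ≤ 1.00021 * s := by linarith [s_gt hs, sg_le hs]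
    have h7 : SN.rho * (SN.rho - s) ≤ 1.00021 * s * (SN.rho - s) := mul_le_mul_of_nonneg_right h6 h1
    linarith
  have h8 : (sin (SN.rho - s) - (SN.rho - s) * cos (SN.rho - s)) / s ^ 2 ≤ 0.00001 * (SN.rho - s) := by
    rw [div_le_iff₀ (by positivity)]
    have h9 : (1000000 : ℝ) ≤ s ^ 2 := by nlinarith [s_gt hs]
    have h10 : 0.00001 * (SN.rho - s) * 1000000 ≤ 0.00001 * (SN.rho - s) * s ^ 2 :=
      mul_le_mul_of_nonneg_left h9 (by linarith)
    have h11 : 0 ≤ (SN.rho - s) * cos (SN.rho - s) := mul_nonneg h1 h3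
    linarith
  linarith

theorem neg_vp_ge : -0.000001 ≤ -vp s := by
  rw [neg_vp_eq hs]
  have h0 := s_pos hs
  have h1 := sg_nonneg hs
  have h2 : 0 ≤ sin (SN.rho - s) := sin_nonneg_of_nonneg_of_le_pi h1
    (by linarith [sg_le hs, pi_gt_three])
  have h3 : cos (SN.rho - s) ≤ 1 := cos_le_one _
  have h4 : 0 ≤ SN.rho * sin (SN.rho - s) / s := by have := SN.rho_pos; positivity
  have h8 : -0.000001 ≤ (sin (SN.rho - s) - (SN.rho - s) * cos (SN.rho - s)) / s ^ 2 := by
    rw [le_div_iff₀ (by positivity)]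
    have h9 : (1000000 : ℝ) ≤ s ^ 2 := by nlinarith [s_gt hs]
    have h11 : (SN.rho - s) * cos (SN.rho - s) ≤ (1 / 4) * 1 :=
      mul_le_mul (sg_le hs) h3 (cos_nonneg_of_mem_Icc ⟨by linarith [pi_gt_three],
        by linarith [sg_le hs, pi_gt_three]⟩) (by norm_num)
    nlinarith
  linarith

theorem abs_vp_le : |vp s| ≤ 0.2502 := by
  rw [abs_le]
  have h1 := neg_vp_le hs
  have h2 := neg_vp_ge hs
  have h3 := sg_le hs
  constructor <;> linarith

theorem vq_le : vq s ≤ 1.001 := by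
  have h0 := s_pos hs
  have h1 : vq s = (SN.rho * cos (SN.rho - s) - sin (SN.rho - s)) / s + 2 * (-vp s) / s := by
    simp only [vq, v0]; ring
  rw [h1]
  have h2 : 0 ≤ sin (SN.rho - s) := sin_nonneg_of_nonneg_of_le_pi (sg_nonneg hs)
    (by linarith [sg_le hs, pi_gt_three])
  have h3 : (SN.rho * cos (SN.rho - s) - sin (SN.rho - s)) / s ≤ 1.0003 := by
    rw [div_le_iff₀ h0]
    have h4 : SN.rho * cos (SN.rho - s) ≤ SN.rho * 1 := mul_le_mul_of_nonneg_left (cos_le_one _) SN.rho_pos.le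
    linarith [s_gt hs, sg_le hs]
  have h4 : 2 * (-vp s) / s ≤ 0.0005 := by
    rw [div_le_iff₀ h0]
    linarith [neg_vp_le hs, sg_le hs, s_gt hs]
  linarith

theorem le_vq : 0.96 ≤ vq s := by
  have h0 := s_pos hs
  have h1 : vq s = (SN.rho * cos (SN.rho - s) - sin (SN.rho - s)) / s + 2 * (-vp s) / s := by
    simp only [vq, v0]; ring
  rw [h1]
  have h2 : sin (SN.rho - s) ≤ SN.rho - s := sin_le (sg_nonneg hs)
  have h3 : 0.9685 ≤ (SN.rho * cos (SN.rho - s) - sin (SN.rho - s)) / s := by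
    rw [le_div_iff₀ h0]
    have h4 : 1 - (SN.rho - s) ^ 2 / 2 ≤ cos (SN.rho - s) := one_sub_sq_div_two_le_cos
    have h5 : (SN.rho - s) ^ 2 ≤ 1 / 16 := by nlinarith [sg_nonneg hs, sg_le hs]
    have h6 : SN.rho * (31 / 32) ≤ SN.rho * cos (SN.rho - s) :=
      mul_le_mul_of_nonneg_left (by linarith) SN.rho_pos.le
    linarith [s_gt hs, sg_le hs, hs.2, s_lt hs, SN.rho_gt]
  have h4 : -0.0005 ≤ 2 * (-vp s) / s := by
    rw [le_div_iff₀ h0]
    linarith [neg_vp_ge hs, s_gt hs]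
  linarith

theorem abs_vr_le' : |vr s| ≤ 1.0003 * (SN.rho - s) + 0.0017 := by
  have h0 := s_pos hs
  have h1 : vr s = -vp s + (-(2 * vq s / s) + 2 * vp s / s ^ 2) := by simp only [vr]; ring
  have h2 : |(-(2 * vq s / s) + 2 * vp s / s ^ 2)| ≤ 0.00167 := by
    have h3 : |(-(2 * vq s / s))| ≤ 0.001655 := by
      rw [abs_neg, abs_div, abs_of_pos h0, div_le_iff₀ h0, abs_of_nonneg
        (by linarith [le_vq hs])]
      linarith [vq_le hs, s_gt hs]
    have h4 : |2 * vp s / s ^ 2| ≤ 0.00001 := by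
      rw [abs_div, abs_of_pos (show (0:ℝ) < s ^ 2 by positivity), div_le_iff₀ (by positivity),
        abs_mul, abs_two]
      have h9 : (1000000 : ℝ) ≤ s ^ 2 := by nlinarith [s_gt hs]
      nlinarith [abs_vp_le hs]
    exact (abs_add_le _ _).trans (by linarith)
  rw [h1]
  have h5 : |(-vp s)| ≤ 1.0003 * (SN.rho - s) + 0.000001 := by
    rw [abs_le]
    constructor <;> linarith [neg_vp_le hs, neg_vp_ge hs, sg_nonneg hs]
  exact (abs_add_le _ _).trans (by linarith)

theorem abs_vr_le : |vr s| ≤ 0.2526 := by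
  have h := abs_vr_le' hs
  have := sg_le hs
  linarith

end bounds

end H55.SQ
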