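import Mathlib
import Pool.Agent.H55.SQ.Coef

/-!
# The cut-off `χ`, `κ = χ' + χ² v₀'''` and `a = 1 - χ v₀''`
-/

set_option autoImplicit false

open Real Set MeasureTheory

noncomputable section

namespace H55.SQ


/-- cut-off -/
def ch (s : ℝ) : ℝ := 64 * (max (s - R0) 0) ^ 3
/-- `χ'` -/
def ch1 (s : ℝ) : ℝ := 192 * (max (s - R0) 0) ^ 2
/-- `κ` -/
def ka (s : ℝ) : ℝ := ch1 s + ch s ^ 2 * vr s
/-- `a` -/
def aa (s : ℝ) : ℝ := 1 - ch s * vq s

theorem hasDerivAt_cube (t : ℝ) :
    HasDerivAt (fun t : ℝ => (max t 0) ^ 3) (3 * (max t 0) ^ 2) t := by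
  rcases lt_trichotomy t 0 with h | h | h
  · have h1 : (fun t : ℝ => (max t 0) ^ 3) =ᶠ[nhds t] fun _ => (0 : ℝ) := by
      filter_upwards [Iio_mem_nhds h] with u hu
      rw [max_eq_right (le_of_lt hu)]; norm_num
    have h2 := (hasDerivAt_const t (0 : ℝ)).congr_of_eventuallyEq h1
    rw [max_eq_right h.le]
    simpa using h2
  · subst h
    rw [max_self]
    norm_num
    rw [hasDerivAt_iff_isLittleO_nhds_zero]
    simp only [zero_add, max_self, ne_eq, OfNat.ofNat_ne_zero, not_false_eq_true, zero_pow,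
      sub_zero, smul_zero]
    rw [Asymptotics.isLittleO_iff]
    intro c hc
    have h1 : ∀ᶠ h : ℝ in nhds 0, |h| < min c 1 := by
      have : Metric.ball (0 : ℝ) (min c 1) ∈ nhds (0 : ℝ) :=
        Metric.ball_mem_nhds _ (lt_min hc one_pos)
      filter_upwards [this] with h hh
      simpa [Real.norm_eq_abs] using hh
    filter_upwards [h1] with h hh
    have h2 : |h| < c := lt_of_lt_of_le hh (min_le_left _ _)
    have h3 : |h| < 1 := lt_of_lt_of_le hh (min_le_right _ _)
    have h4 : |max h 0| ≤ |h| := by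
      rcases le_total h 0 with h5 | h5
      · rw [max_eq_right h5]; simp
      · rw [max_eq_left h5]
    rw [Real.norm_eq_abs, Real.norm_eq_abs, abs_pow]
    calc |max h 0| ^ 3 ≤ |h| ^ 3 := pow_le_pow_left₀ (abs_nonneg _) h4 3
      _ = |h| * |h| * |h| := by ring
      _ ≤ c * 1 * |h| := by
        apply mul_le_mul_of_nonneg_right _ (abs_nonneg _)
        exact mul_le_mul h2.le h3.le (abs_nonneg _) hc.le
      _ = c * |h| := by ring
  · have h1 : (fun t : ℝ => (max t 0) ^ 3) =ᶠ[nhds t] fun u => u ^ 3 := by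
      filter_upwards [Ioi_mem_nhds h] with u hu
      rw [max_eq_left (le_of_lt hu)]
    have h2 := (hasDerivAt_pow 3 t).congr_of_eventuallyEq h1
    rw [max_eq_left h.le]
    simpa using h2

theorem hasDerivAt_ch (s : ℝ) : HasDerivAt ch (ch1 s) s := by
  have h1 : HasDerivAt (fun s : ℝ => s - R0) 1 s := (hasDerivAt_id s).sub_const R0
  have h2 := ((hasDerivAt_cube (s - R0)).comp s h1).const_mul 64
  refine h2.congr_deriv ?_
  simp only [ch1]; ring

theorem continuous_ch : Continuous ch := by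
  unfold ch; fun_prop

theorem continuous_ch1 : Continuous ch1 := by
  unfold ch1; fun_prop

theorem ch_of_le {s : ℝ} (h : s ≤ R0) : ch s = 0 := by
  simp [ch, max_eq_right (sub_nonpos.mpr h)]

theorem ch1_of_le {s : ℝ} (h : s ≤ R0) : ch1 s = 0 := by
  simp [ch1, max_eq_right (sub_nonpos.mpr h)]

theorem ka_of_le {s : ℝ} (h : s ≤ R0) : ka s = 0 := by
  simp [ka, ch_of_le h, ch1_of_le h]

theorem ch_rho : ch SN.rho = 1 := by
  have : SN.rho - R0 = 1 / 4 := by rw [R0_def]; ring
  simp [ch, this]; norm_num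

theorem ch1_rho : ch1 SN.rho = 12 := by
  have : SN.rho - R0 = 1 / 4 := by rw [R0_def]; ring
  simp [ch1, this]; norm_num

theorem aa_rho : aa SN.rho = 0 := by simp [aa, ch_rho, vq_rho]

theorem continuousOn_v0 : ContinuousOn v0 (Ioi 0) := fun s hs =>
  (hasDerivAt_v0 (ne_of_gt hs)).continuousAt.continuousWithinAt
theorem continuousOn_vp : ContinuousOn vp (Ioi 0) := fun s hs =>
  (hasDerivAt_vp (ne_of_gt hs)).continuousAt.continuousWithinAt
theorem continuousOn_vq : ContinuousOn vq (Ioi 0) := fun s hs =>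
  (hasDerivAt_vq (ne_of_gt hs)).continuousAt.continuousWithinAt
theorem continuousOn_vr : ContinuousOn vr (Ioi 0) := by
  unfold vr
  have h0 : ∀ x ∈ Ioi (0 : ℝ), x ≠ 0 := fun x hx => ne_of_gt hx
  have h1 : ∀ x ∈ Ioi (0 : ℝ), x ^ 2 ≠ 0 := fun x hx => pow_ne_zero 2 (h0 x hx)
  exact ((continuousOn_vp.neg).sub ((continuousOn_const.mul continuousOn_vq).div
    continuousOn_id h0)).add ((continuousOn_const.mul continuousOn_vp).div
    (continuousOn_id.pow 2) h1)

theorem continuousOn_ka' : ContinuousOn ka (Ioi 0) := by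
  unfold ka
  exact continuous_ch1.continuousOn.add ((continuous_ch.continuousOn.pow 2).mul continuousOn_vr)

theorem R0_pos : 0 < R0 := lt_trans (by norm_num) R0_gt

/-- `κ` is continuous everywhere -/
theorem continuous_ka : Continuous ka := by
  rw [continuous_iff_continuousAt]
  intro s
  rcases lt_or_ge s R0 with h | h
  · have h1 : ka =ᶠ[nhds s] fun _ => (0 : ℝ) := by
      filter_upwards [Iio_mem_nhds h] with u hu
      exact ka_of_le (le_of_lt hu)
    exact (continuousAt_congr h1).mpr continuousAt_const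
  · exact (continuousOn_ka').continuousAt (Ioi_mem_nhds (lt_of_lt_of_le R0_pos h))

section bounds

variable {s : ℝ} (hs : s ∈ Icc R0 SN.rho)
include hs

theorem mx : max (s - R0) 0 = s - R0 := max_eq_left (sub_nonneg.mpr hs.1)

theorem t_nonneg : 0 ≤ s - R0 := sub_nonneg.mpr hs.1
theorem t_le : s - R0 ≤ 1 / 4 := by have := hs.2; rw [R0_def]; linarith

theorem ch_nonneg : 0 ≤ ch s := by
  simp only [ch, mx hs]; have := t_nonneg hs; positivity

theorem ch1_nonneg : 0 ≤ ch1 s := by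
  simp only [ch1, mx hs]; have := t_nonneg hs; positivity

theorem ch_le : ch s ≤ 1 := by
  simp only [ch, mx hs]
  have := pow_le_pow_left₀ (t_nonneg hs) (t_le hs) 3
  linarith

theorem ch1_le : ch1 s ≤ 12 := by
  simp only [ch1, mx hs]
  have := pow_le_pow_left₀ (t_nonneg hs) (t_le hs) 2
  linarith

theorem abs_ch_le : |ch s| ≤ 1 := by rw [abs_of_nonneg (ch_nonneg hs)]; exact ch_le hs
theorem abs_ch1_le : |ch1 s| ≤ 12 := by rw [abs_of_nonneg (ch1_nonneg hs)]; exact ch1_le hs

theorem abs_aa_le : |aa s| ≤ 1 := by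
  have h1 := ch_nonneg hs
  have h2 := ch_le hs
  have h3 := vq_le hs
  have h4 := le_vq hs
  simp only [aa]
  have h5 : 0 ≤ ch s * vq s := mul_nonneg h1 (by linarith)
  have h6 : ch s * vq s ≤ 1 * 1.001 := mul_le_mul h2 h3 (by linarith) (by norm_num)
  rw [abs_le]
  constructor <;> linarith

theorem abs_ka_le : |ka s| ≤ 12.3 := by
  simp only [ka]
  have h1 := abs_ch1_le hs
  have h2 : |ch s ^ 2 * vr s| ≤ 1 * 0.2526 := by
    rw [abs_mul, abs_pow]
    exact mul_le_mul (pow_le_one₀ (abs_nonneg _) (abs_ch_le hs)) (abs_vr_le hs)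
      (abs_nonneg _) (by norm_num)
  exact (abs_add_le _ _).trans (by linarith)

theorem abs_ka_le' : |ka s| ≤ 192 * (s - R0) ^ 2 +
    4096 * (s - R0) ^ 6 * (1.0003 * (1 / 4 - (s - R0)) + 0.0017) := by
  simp only [ka]
  have h1 : |ch1 s| = 192 * (s - R0) ^ 2 := by
    rw [abs_of_nonneg (ch1_nonneg hs)]; simp only [ch1, mx hs]
  have h2 : |ch s ^ 2 * vr s| ≤
      4096 * (s - R0) ^ 6 * (1.0003 * (1 / 4 - (s - R0)) + 0.0017) := by
    rw [abs_mul, abs_pow, abs_of_nonneg (ch_nonneg hs)]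
    have h3 : ch s ^ 2 = 4096 * (s - R0) ^ 6 := by simp only [ch, mx hs]; ring
    rw [h3]
    have h4 := abs_vr_le' hs
    have h5 : SN.rho - s = 1 / 4 - (s - R0) := by rw [R0_def]; ring
    rw [h5] at h4
    exact mul_le_mul_of_nonneg_left h4 (by have := t_nonneg hs; positivity)
  exact (abs_add_le _ _).trans (by linarith)

end bounds

theorem integral_abs_ka : ∫ s in R0..SN.rho, |ka s| ≤ 1.0012 := by
  have hle : R0 ≤ SN.rho := R0_lt_rho.le
  have h1 : ∫ s in R0..SN.rho, |ka s| ≤ ∫ s in R0..SN.rho, (192 * (s - R0) ^ 2 +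
      4096 * (s - R0) ^ 6 * (1.0003 * (1 / 4 - (s - R0)) + 0.0017)) := by
    apply intervalIntegral.integral_mono_on hle
    · exact (continuous_ka.abs).intervalIntegrable _ _
    · apply Continuous.intervalIntegrable; fun_prop
    · intro s hs
      exact abs_ka_le' hs
  refine h1.trans ?_
  have h2 := intervalIntegral.integral_comp_sub_right (a := R0) (b := SN.rho)
    (fun t : ℝ => 192 * t ^ 2 + 4096 * t ^ 6 * (1.0003 * (1 / 4 - t) + 0.0017)) R0
  rw [h2]
  have h3 : SN.rho - R0 = 1 / 4 := by rw [R0_def]; ring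
  rw [h3, sub_self]
  have h4 : ∀ t : ℝ, HasDerivAt (fun t : ℝ => 64 * t ^ 3 + 4096 / 7 * (1.0003 / 4 + 0.0017) * t ^ 7
      - 4096 * 1.0003 / 8 * t ^ 8)
      (192 * t ^ 2 + 4096 * t ^ 6 * (1.0003 * (1 / 4 - t) + 0.0017)) t := by
    intro t
    have := (((hasDerivAt_pow 3 t).const_mul 64).add ((hasDerivAt_pow 7 t).const_mul
      (4096 / 7 * (1.0003 / 4 + 0.0017)))).sub ((hasDerivAt_pow 8 t).const_mul (4096 * 1.0003 / 8))
    refine this.congr_deriv ?_
    norm_num
    ring
  rw [intervalIntegral.integral_eq_sub_of_hasDerivAt (fun t _ => h4 t)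
    (by apply Continuous.intervalIntegrable; fun_prop)]
  norm_num

end H55.SQ
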