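import Mathlib
import Pool.Agent.H37.SG.PLow
import Pool.Agent.H36.SC.Contact
import Pool.Agent.H55.SQ.Cut

/-!
# The base solution of mode `478` and the structure `Bg`
-/

set_option autoImplicit false

open Real Set MeasureTheory SG

noncomputable section

namespace H55.SQ


/-- the Cauchy solution with data `z(rho) = 0`, `y(rho) = 1`: first component -/
def zb {lam : ℝ} (F : Fund lam) (s : ℝ) : ℝ := SN.rho ^ 2 * (F.n SN.rho * F.j s - F.j SN.rho * F.n s)
/-- second component -/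
def yb {lam : ℝ} (F : Fund lam) (s : ℝ) : ℝ := -(SN.rho ^ 2 * (F.n SN.rho * F.dj s - F.j SN.rho * F.dn s))

section

variable {lam : ℝ} (F : Fund lam)

theorem psol_b : PSol lam (fun _ => 0) (fun _ => 0) (zb F) (yb F) where
  h1 := fun s hs => by
    have := (((F.hj s hs).const_mul (F.n SN.rho)).sub ((F.hn s hs).const_mul (F.j SN.rho))).const_mul (SN.rho ^ 2)
    refine this.congr_deriv ?_
    simp only [yb]; ring
  h2 := fun s hs => by
    have := ((((F.hdj s hs).const_mul (F.n SN.rho)).sub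
      ((F.hdn s hs).const_mul (F.j SN.rho))).const_mul (SN.rho ^ 2)).neg
    refine this.congr_deriv ?_
    simp only [yb, zb]; ring

theorem zb_rho : zb F SN.rho = 0 := by simp only [zb]; ring

theorem yb_rho : yb F SN.rho = 1 := by
  have := F.wr SN.rho SN.rho_pos
  simp only [yb]
  linear_combination this

theorem sq_R0 : 1466116 < R0 ^ 2 := by nlinarith [R0_gt]

theorem theta_le : 2 * (SN.rho - R0) / R0 + (SN.rho - R0) ^ 2 / 2 ≤ 1 - 0.968 := by
  have h : SN.rho - R0 = 1 / 4 := by rw [R0_def]; ring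
  rw [h]
  have h1 : 2 * (1 / 4 : ℝ) / R0 ≤ 0.0005 := by
    rw [div_le_iff₀ R0_pos]; linarith [R0_gt]
  linarith

theorem abs_om_le (hlam0 : 0 ≤ lam) (hlam : lam ≤ 1210 * 1211) :
    ∀ s ∈ Icc R0 SN.rho, |1 - lam / s ^ 2| ≤ 1 := by
  intro s hs
  have h0 : 0 < s := s_pos hs
  have h1 : R0 ^ 2 ≤ s ^ 2 := pow_le_pow_left₀ R0_pos.le hs.1 2
  have h2 : lam / s ^ 2 ≤ 1 := by
    rw [div_le_one (by positivity)]
    linarith [sq_R0]
  have h3 : 0 ≤ lam / s ^ 2 := by positivity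
  rw [abs_le]; constructor <;> linarith

theorem abs_yb_le (hlam0 : 0 ≤ lam) (hlam : lam ≤ 1210 * 1211) :
    ∀ s ∈ Icc R0 SN.rho, |yb F s| ≤ 1.0331 := by
  intro s hs
  have h := (psol_b F).low (R0 := R0) (ρ := SN.rho) continuous_const continuous_const R0_pos
    R0_lt_rho.le (abs_om_le hlam0 hlam) (I1 := 0) (I2 := 0) (by simp) (by simp) theta_le
    (by norm_num) s hs
  rw [yb_rho, zb_rho] at h
  norm_num at h
  refine h.trans (by norm_num)

theorem abs_zb_le (hlam0 : 0 ≤ lam) (hlam : lam ≤ 1210 * 1211) :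
    ∀ s ∈ Icc R0 SN.rho, |zb F s| ≤ 1.0331 * (SN.rho - s) := by
  intro s hs
  have h := (psol_b F).z_le (R0 := R0) (ρ := SN.rho) continuous_const R0_pos (abs_yb_le F hlam0 hlam)
    (I1 := 0) (by simp) hs
  rw [zb_rho] at h
  simpa using h

theorem abs_zb_le' (hlam0 : 0 ≤ lam) (hlam : lam ≤ 1210 * 1211) :
    ∀ s ∈ Icc R0 SN.rho, |zb F s| ≤ 0.2583 := by
  intro s hs
  have h1 := abs_zb_le F hlam0 hlam s hs
  have h2 := sg_le hs
  linarith

end

theorem lam_l_le : ∀ s ∈ Icc R0 SN.rho, (478 * 479 : ℝ) / s ^ 2 ≤ 0.1562 := by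
  intro s hs
  have h1 : R0 ^ 2 ≤ s ^ 2 := pow_le_pow_left₀ R0_pos.le hs.1 2
  have h0 : 0 < s := s_pos hs
  rw [div_le_iff₀ (by positivity)]
  linarith [sq_R0]

/-- the background data of the contact transform -/
theorem bg : Pool.Agent.H36.SC.Bg (Ioi 0) v0 vp vq vr ch ch1 where
  pos := fun s hs => ne_of_gt hs
  dv0 := fun s hs => hasDerivAt_v0 (ne_of_gt hs)
  dp := fun s hs => hasDerivAt_vp (ne_of_gt hs)
  dq := fun s hs => hasDerivAt_vq (ne_of_gt hs)
  dch := fun s _ => hasDerivAt_ch s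
  ode := fun s hs => ode s (ne_of_gt hs)
  ode' := fun s hs => ode' s (ne_of_gt hs)

end H55.SQ
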