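import Mathlib
import Pool.Agent.H94.SF.Defs

import Pool.Agent.H55.SQ.Base

/-!
# H55/SQ/Bridge: the coefficient functions of `H55.SQ` are those of `SF`; bounds in the names of
`SF` (problem MP_f4af34).
-/

set_option autoImplicit false

open Real Set MeasureTheory

namespace SF.Bd

open Pool.Agent.H36.SC
open Pool.Agent.H68.SC (jl djl)

theorem sq_R0 : H55.SQ.R0 = R0 := by
  unfold H55.SQ.R0 R0 rho wd
  ring

theorem sq_v0 {s : ℝ} (hs : 0 < s) : v0 s = H55.SQ.v0 s := by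
  rw [H55.SQ.v0_eq s hs.ne']
  rfl

theorem sq_v1 {s : ℝ} (hs : 0 < s) : v1 s = H55.SQ.vp s := by
  have h1 := bv0_hasDerivAt rho hs
  have h2 := H55.SQ.hasDerivAt_v0 hs.ne'
  have h3 : (v0 : ℝ → ℝ) =ᶠ[nhds s] H55.SQ.v0 := by
    filter_upwards [lt_mem_nhds hs] with t ht
    exact sq_v0 ht
  exact h1.unique (h2.congr_of_eventuallyEq h3)

theorem sq_v2 {s : ℝ} (hs : 0 < s) : v2 s = H55.SQ.vq s := by
  have h1 := bp_hasDerivAt rho hs
  have h2 := H55.SQ.hasDerivAt_vp hs.ne'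
  have h3 : (v1 : ℝ → ℝ) =ᶠ[nhds s] H55.SQ.vp := by
    filter_upwards [lt_mem_nhds hs] with t ht
    exact sq_v1 ht
  exact h1.unique (h2.congr_of_eventuallyEq h3)

theorem sq_v3 {s : ℝ} (hs : 0 < s) : v3 s = H55.SQ.vr s := by
  have h1 := bq_hasDerivAt rho hs
  have h2 := H55.SQ.hasDerivAt_vq hs.ne'
  have h3 : (v2 : ℝ → ℝ) =ᶠ[nhds s] H55.SQ.vq := by
    filter_upwards [lt_mem_nhds hs] with t ht
    exact sq_v2 ht
  exact h1.unique (h2.congr_of_eventuallyEq h3)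

theorem sq_chi (s : ℝ) : chi s = H55.SQ.ch s := by
  simp only [chi, cut, ppt, H55.SQ.ch, sq_R0, wd]
  ring

theorem sq_chi1 (s : ℝ) : chi1 s = H55.SQ.ch1 s := by
  simp only [chi1, cut1, ppt, H55.SQ.ch1, sq_R0, wd]
  ring

theorem sq_aa {s : ℝ} (hs : 0 < s) : aa s = H55.SQ.aa s := by
  simp only [aa, H55.SQ.aa, sq_chi, sq_v2 hs]

theorem sq_kap {s : ℝ} (hs : 0 < s) : kap s = H55.SQ.ka s := by
  simp only [kap, H55.SQ.ka, sq_chi, sq_chi1, sq_v3 hs]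

section bounds

variable {s : ℝ} (hs : s ∈ I0)

include hs

theorem I0_pos : 0 < s := lt_of_lt_of_le R0_pos hs.1

theorem I0_sq : s ∈ Icc H55.SQ.R0 SN.rho := by rw [sq_R0]; exact hs

theorem I0_inv_le : 1 / s ≤ 1 / 1210 := H55.SQ.inv_le (I0_sq hs)

theorem abs_v1_le : |v1 s| ≤ 2502 / 10000 := by
  rw [sq_v1 (I0_pos hs)]
  refine (H55.SQ.abs_vp_le (I0_sq hs)).trans (by norm_num)

theorem v2_le : v2 s ≤ 1001 / 1000 := by
  rw [sq_v2 (I0_pos hs)]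
  refine (H55.SQ.vq_le (I0_sq hs)).trans (by norm_num)

theorem le_v2 : 96 / 100 ≤ v2 s := by
  rw [sq_v2 (I0_pos hs)]
  refine le_trans (by norm_num) (H55.SQ.le_vq (I0_sq hs))

theorem abs_v3_le : |v3 s| ≤ 2526 / 10000 := by
  rw [sq_v3 (I0_pos hs)]
  refine (H55.SQ.abs_vr_le (I0_sq hs)).trans (by norm_num)

theorem chi_nonneg : 0 ≤ chi s := by rw [sq_chi]; exact H55.SQ.ch_nonneg (I0_sq hs)
theorem chi1_nonneg : 0 ≤ chi1 s := by rw [sq_chi1]; exact H55.SQ.ch1_nonneg (I0_sq hs)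
theorem chi_le : chi s ≤ 1 := by rw [sq_chi]; exact H55.SQ.ch_le (I0_sq hs)
theorem chi1_le : chi1 s ≤ 12 := by rw [sq_chi1]; exact H55.SQ.ch1_le (I0_sq hs)
theorem abs_chi_le : |chi s| ≤ 1 := by rw [sq_chi]; exact H55.SQ.abs_ch_le (I0_sq hs)
theorem abs_chi1_le : |chi1 s| ≤ 12 := by rw [sq_chi1]; exact H55.SQ.abs_ch1_le (I0_sq hs)

theorem abs_aa_le : |aa s| ≤ 1 := by
  rw [sq_aa (I0_pos hs)]
  exact H55.SQ.abs_aa_le (I0_sq hs)

theorem abs_kap_le : |kap s| ≤ 123 / 10 := by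
  rw [sq_kap (I0_pos hs)]
  refine (H55.SQ.abs_ka_le (I0_sq hs)).trans (by norm_num)

end bounds

theorem integral_abs_kap : ∫ s in R0..rho, |kap s| ≤ 10012 / 10000 := by
  have h : ∫ s in R0..rho, |kap s| = ∫ s in H55.SQ.R0..SN.rho, |H55.SQ.ka s| := by
    rw [sq_R0]
    refine intervalIntegral.integral_congr fun s hs => ?_
    rw [uIcc_of_le R0_lt.le] at hs
    simp only [sq_kap (I0_pos hs)]
  rw [h]
  refine H55.SQ.integral_abs_ka.trans (by norm_num)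

end SF.Bd
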