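import Mathlib
import Pool.Agent.H55.SQ.Bridge
import Pool.Agent.H37.SG.Bes

/-!
# H55/SQ/BaseN: the resonant mode 478, Cauchy data `z(ρ) = 0`, `y(ρ) = 1`, with the weight `ν^478`
(problem MP_f4af34).
-/

set_option autoImplicit false

open Real Set MeasureTheory

namespace SF.Bd

open Pool.Agent.H68.SC (jl djl)

/-- `λ = 478 · 479` -/
noncomputable abbrev lml : ℝ := ((ell : ℕ) : ℝ) * ((ell : ℕ) + 1)

/-- the resonant mode, `z` and `y` -/
noncomputable def bz : ℝ → ℝ := H55.SQ.zb (SG.bes ell)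
noncomputable def by' : ℝ → ℝ := H55.SQ.yb (SG.bes ell)

theorem psol : SG.PSol lml (fun _ => 0) (fun _ => 0) bz by' := H55.SQ.psol_b (SG.bes ell)

theorem bz_rho : bz rho = 0 := H55.SQ.zb_rho (SG.bes ell)

theorem by_rho : by' rho = 1 := H55.SQ.yb_rho (SG.bes ell)

theorem lml_nonneg : 0 ≤ lml := by positivity

theorem lml_le : lml ≤ 1210 * 1211 := by
  unfold lml ell
  norm_num

theorem nu_pow_ell : nu ^ ell ≤ 10491 / 10000 := by
  have h : ((1 + 1 / 10 ^ 4 : ℚ) ^ 478) ≤ 10491 / 10000 := by decide +kernel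
  have h2 : (((1 + 1 / 10 ^ 4 : ℚ) ^ 478 : ℚ) : ℝ) ≤ ((10491 / 10000 : ℚ) : ℝ) := by
    exact_mod_cast h
  push_cast at h2
  unfold nu ell
  norm_num at h2 ⊢
  exact h2

theorem one_le_nu_pow_ell : 1 ≤ nu ^ ell := one_le_nu_pow ell

variable {s : ℝ} (hs : s ∈ I0)

include hs

theorem abs_by_le : |by' s| ≤ 10331 / 10000 := by
  have := H55.SQ.abs_yb_le (SG.bes ell) lml_nonneg lml_le s (I0_sq hs)
  refine this.trans (by norm_num)

theorem abs_bz_le : |bz s| ≤ 2583 / 10000 := by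
  have := H55.SQ.abs_zb_le' (SG.bes ell) lml_nonneg lml_le s (I0_sq hs)
  refine this.trans (by norm_num)

theorem lml_div_le : lml / s ^ 2 ≤ 1562 / 10000 := by
  have := H55.SQ.lam_l_le s (I0_sq hs)
  have h : lml = 478 * 479 := by unfold lml ell; norm_num
  rw [h]
  refine this.trans (by norm_num)

theorem nu_by_le : nu ^ ell * |by' s| ≤ 109 / 100 := by
  calc nu ^ ell * |by' s| ≤ (10491 / 10000) * (10331 / 10000) :=
        mul_le_mul nu_pow_ell (abs_by_le hs) (abs_nonneg _) (by norm_num)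
    _ ≤ 109 / 100 := by norm_num

theorem nu_bz_le : nu ^ ell * |bz s| ≤ 275 / 1000 := by
  calc nu ^ ell * |bz s| ≤ (10491 / 10000) * (2583 / 10000) :=
        mul_le_mul nu_pow_ell (abs_bz_le hs) (abs_nonneg _) (by norm_num)
    _ ≤ 275 / 1000 := by norm_num

theorem nu_bl_le : nu ^ ell * |lml / s ^ 2 * bz s| ≤ 43 / 1000 := by
  have h0 : 0 ≤ lml / s ^ 2 := div_nonneg lml_nonneg (sq_nonneg s)
  rw [abs_mul, abs_of_nonneg h0]
  calc nu ^ ell * (lml / s ^ 2 * |bz s|) ≤ (10491 / 10000) * ((1562 / 10000) * (2583 / 10000)) := by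
        refine mul_le_mul nu_pow_ell ?_ (by positivity) (by norm_num)
        exact mul_le_mul (lml_div_le hs) (abs_bz_le hs) (abs_nonneg _) (by norm_num)
    _ ≤ 43 / 1000 := by norm_num

end SF.Bd
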