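import Mathlib
import Pool.Agent.H50.SF.Conc
import Pool.Agent.H27.Leg.Ev
import Pool.Agent.H55.SQ.BaseN

/-!
# H55/SQ/Elts: the coefficient elements of the algebra `W L0 w0` and the resonant elements
(problem MP_f4af34).
-/

set_option autoImplicit false

open Set MeasureTheory
open Pool.Agent.H27.Leg (W Wt mono co sc iota evn evnAlg)
open Pool.Agent.H50.SF (L0 S0 h0 sR sr)

namespace SF

/-- the base of the weights; a little more than `nu` -/
noncomputable def nu1 : ℝ := 1 + 10001 / 10 ^ 8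

theorem nu_lt_nu1 : nu < nu1 := by
  unfold nu nu1
  norm_num

theorem one_le_nu1 : 1 ≤ nu1 := by
  unfold nu1
  norm_num

theorem nu1_pos : 0 < nu1 := lt_of_lt_of_le one_pos one_le_nu1

theorem nu1_pow_ell : nu1 ^ ell ≤ 10491 / 10000 := by
  have h : ((1 + 10001 / 10 ^ 8 : ℚ) ^ 478) ≤ 10491 / 10000 := by decide +kernel
  have h2 : (((1 + 10001 / 10 ^ 8 : ℚ) ^ 478 : ℚ) : ℝ) ≤ ((10491 / 10000 : ℚ) : ℝ) := by
    exact_mod_cast h
  push_cast at h2
  unfold nu1 ell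
  norm_num at h2 ⊢
  exact h2

/-- `max 1 μ_l = 1`, with `R0` -/
theorem muh_ell : max 1 (Real.sqrt (lam ell) / R0) = 1 := by
  apply max_eq_left
  have h0 := R0_pos
  have h1 := rho_gt'
  rw [div_le_one h0, Real.sqrt_le_left h0.le]
  unfold lam ell R0 wd
  push_cast
  nlinarith

/-- `max 1 μ_l = 1`, with `ρ` -/
theorem muh_ell' : max 1 (Real.sqrt (lam ell) / rho) = 1 := by
  apply max_eq_left
  have h1 := rho_gt'
  have h0 : 0 < rho := by linarith
  rw [div_le_one h0, Real.sqrt_le_left h0.le]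
  unfold lam ell
  push_cast
  nlinarith

namespace El

/-! ### functions on the layer -/

/-- a function on the layer -/
noncomputable def fn (f : ℝ → ℝ) (hf : ContinuousOn f I0) : L0 :=
  ⟨fun s : S0 => f s, continuousOn_iff_continuous_domRestrict.1 hf⟩

theorem fn_apply (f : ℝ → ℝ) (hf : ContinuousOn f I0) (s : S0) : fn f hf s = f s := rfl

theorem norm_fn_le (f : ℝ → ℝ) (hf : ContinuousOn f I0) {C : ℝ} (hC : 0 ≤ C)
    (h : ∀ s ∈ I0, |f s| ≤ C) : ‖fn f hf‖ ≤ C :=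
  (ContinuousMap.norm_le _ hC).2 fun s => h s s.2

/-! ### constant elements -/

variable (w0 : ℕ → ℝ) [hw : Fact (Wt w0)]

/-- the element of `W L0 w0` which does not depend on `x` -/
noncomputable def el (f : ℝ → ℝ) (hf : ContinuousOn f I0) : W L0 w0 := iota L0 w0 (fn f hf)

variable {w0}

theorem norm_el_le (f : ℝ → ℝ) (hf : ContinuousOn f I0) {C : ℝ} (hC : 0 ≤ C)
    (h : ∀ s ∈ I0, |f s| ≤ C) : ‖el w0 f hf‖ ≤ C := by
  unfold el
  rw [Pool.Agent.H27.Leg.norm_iota]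
  exact norm_fn_le f hf hC h

theorem co_el (f : ℝ → ℝ) (hf : ContinuousOn f I0) (k : ℕ) :
    co (el w0 f hf) k = if k = 0 then fn f hf else 0 := by
  unfold el
  rw [Pool.Agent.H27.Leg.iota_apply, Pool.Agent.H27.Leg.co_mono, hw.out.zero, inv_one, one_smul]

theorem co_el_apply (f : ℝ → ℝ) (hf : ContinuousOn f I0) (k : ℕ) (s : S0) :
    co (el w0 f hf) k s = if k = 0 then f s else 0 := by
  rw [co_el]
  split_ifs
  · rfl
  · rfl

theorem ev_el (f : ℝ → ℝ) (hf : ContinuousOn f I0) (s : S0) (x : ℝ) :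
    SF.ev (fun k => co (el w0 f hf) k s) x = f s := by
  unfold SF.ev
  rw [tsum_eq_single 0]
  · simp only [co_el_apply, if_true]
    simp [Pool.Agent.H27.Leg.P]
  · intro k hk
    simp only [co_el_apply, if_neg hk, zero_mul]

theorem co_el_mul (f : ℝ → ℝ) (hf : ContinuousOn f I0) (g : W L0 w0) (k : ℕ) (s : S0) :
    co (el w0 f hf * g) k s = f s * co g k s := by
  unfold el
  rw [Pool.Agent.H27.Leg.co_iota_mul]
  rfl

theorem el_mem (f : ℝ → ℝ) (hf : ContinuousOn f I0) : el w0 f hf ∈ evnAlg L0 w0 :=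
  Pool.Agent.H27.Leg.iota_mem_evn _

/-! ### monomials -/

/-- the monomial with coefficient `f` -/
noncomputable def mn (w : ℕ → ℝ) (n : ℕ) (f : L0) : W L0 w := mono n (w n • f)

theorem co_mn (w : ℕ → ℝ) (n : ℕ) (f : L0) (h : w n ≠ 0) (m : ℕ) :
    co (mn w n f) m = if m = n then f else 0 := by
  unfold mn
  rw [Pool.Agent.H27.Leg.co_mono]
  split_ifs with h1
  · rw [smul_smul, inv_mul_cancel₀ h, one_smul]
  · rfl

theorem norm_mn (w : ℕ → ℝ) (n : ℕ) (f : L0) (h : 0 ≤ w n) : ‖mn w n f‖ = w n * ‖f‖ := by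
  unfold mn
  rw [Pool.Agent.H27.Leg.norm_mono, norm_smul, Real.norm_eq_abs, abs_of_nonneg h]

theorem mn_mem (w : ℕ → ℝ) (n : ℕ) (f : L0) (h : n % 2 = 0) : mn w n f ∈ evn L0 w :=
  Pool.Agent.H27.Leg.mono_mem_evn h _

/-! ### the coefficients -/

theorem I0_sub : I0 ⊆ Ioi 0 := fun _ hs => Bd.I0_pos hs

theorem c_chi : ContinuousOn chi I0 := fun s hs =>
  (bgd.dch s (I0_sub hs)).continuousAt.continuousWithinAt

theorem c_chi1 : ContinuousOn chi1 I0 := by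
  have h : chi1 = H55.SQ.ch1 := funext Bd.sq_chi1
  rw [h]
  exact H55.SQ.continuous_ch1.continuousOn

theorem c_v1 : ContinuousOn v1 I0 := fun s hs =>
  (bgd.dp s (I0_sub hs)).continuousAt.continuousWithinAt

theorem c_v2 : ContinuousOn v2 I0 := fun s hs =>
  (bgd.dq s (I0_sub hs)).continuousAt.continuousWithinAt

theorem c_v3 : ContinuousOn v3 I0 :=
  (H55.SQ.continuousOn_vr.mono I0_sub).congr fun _ hs => Bd.sq_v3 (I0_sub hs)

theorem c_kap : ContinuousOn kap I0 :=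
  H55.SQ.continuous_ka.continuousOn.congr fun _ hs => Bd.sq_kap (I0_sub hs)

theorem c_aa : ContinuousOn aa I0 := continuousOn_const.sub (c_chi.mul c_v2)

theorem c_inv : ContinuousOn (fun s : ℝ => 1 / s) I0 :=
  continuousOn_const.div continuousOn_id fun s hs => ne_of_gt (I0_sub hs)

/-- continuous extension of `κ` -/
noncomputable def kapx : ℝ → ℝ := H55.SQ.ka

theorem kapx_cont : Continuous kapx := H55.SQ.continuous_ka

theorem kapx_eq : ∀ s ∈ I0, kapx s = kap s := fun _ hs => (Bd.sq_kap (I0_sub hs)).symm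

theorem kapx_half_le : ∀ s ∈ I0, |kapx s / 2| ≤ 615 / 100 := by
  intro s hs
  rw [kapx_eq s hs, abs_div, abs_two]
  have := Bd.abs_kap_le hs
  linarith

theorem kapx_half_le' : ∀ s ∈ I0, |kapx s / 2| ≤ 7 := fun s hs =>
  (kapx_half_le s hs).trans (by norm_num)

theorem integral_kapx_half : ∫ s in R0..rho, |kapx s / 2| ≤ 505 / 1000 := by
  have h : ∀ s, |kapx s / 2| = |kapx s| / 2 := fun s => by rw [abs_div, abs_two]
  simp only [h]
  rw [intervalIntegral.integral_div]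
  have h2 : ∫ s in R0..rho, |kapx s| = ∫ s in R0..rho, |kap s| := by
    refine intervalIntegral.integral_congr fun s hs => ?_
    rw [uIcc_of_le R0_lt.le] at hs
    simp only [kapx_eq s hs]
  rw [h2]
  have := Bd.integral_abs_kap
  linarith

variable (w0)

noncomputable def eCh : W L0 w0 := el w0 chi c_chi
noncomputable def eCh1 : W L0 w0 := el w0 chi1 c_chi1
noncomputable def eKap : W L0 w0 := el w0 kap c_kap
noncomputable def eQ3 : W L0 w0 := el w0 v3 c_v3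
noncomputable def eP : W L0 w0 := el w0 v1 c_v1
noncomputable def eSi : W L0 w0 := el w0 (fun s => 1 / s) c_inv
noncomputable def eA : W L0 w0 := el w0 aa c_aa

variable {w0}

theorem norm_eCh : ‖eCh w0‖ ≤ 1 := norm_el_le _ _ zero_le_one fun _ hs => Bd.abs_chi_le hs
theorem norm_eCh1 : ‖eCh1 w0‖ ≤ 12 := norm_el_le _ _ (by norm_num) fun _ hs => Bd.abs_chi1_le hs
theorem norm_eKap : ‖eKap w0‖ ≤ 123 / 10 :=
  norm_el_le _ _ (by norm_num) fun _ hs => Bd.abs_kap_le hs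
theorem norm_eQ3 : ‖eQ3 w0‖ ≤ 2526 / 10000 :=
  norm_el_le _ _ (by norm_num) fun _ hs => Bd.abs_v3_le hs
theorem norm_eP : ‖eP w0‖ ≤ 2502 / 10000 :=
  norm_el_le _ _ (by norm_num) fun _ hs => Bd.abs_v1_le hs
theorem norm_eSi : ‖eSi w0‖ ≤ 1 / 1210 :=
  norm_el_le _ _ (by norm_num) fun s hs => by
    rw [abs_of_nonneg (by have := Bd.I0_pos hs; positivity)]
    exact Bd.I0_inv_le hs
theorem norm_eA : ‖eA w0‖ ≤ 1 := norm_el_le _ _ zero_le_one fun _ hs => Bd.abs_aa_le hs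

theorem v_ch (s : S0) (x : ℝ) : SF.ev (fun k => co (eCh w0) k s) x = chi s := ev_el _ _ s x
theorem v_ch1 (s : S0) (x : ℝ) : SF.ev (fun k => co (eCh1 w0) k s) x = chi1 s := ev_el _ _ s x
theorem v_kap (s : S0) (x : ℝ) : SF.ev (fun k => co (eKap w0) k s) x = kap s := ev_el _ _ s x
theorem v_q3 (s : S0) (x : ℝ) : SF.ev (fun k => co (eQ3 w0) k s) x = v3 s := ev_el _ _ s x
theorem v_p (s : S0) (x : ℝ) : SF.ev (fun k => co (eP w0) k s) x = v1 s := ev_el _ _ s x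
theorem v_si (s : S0) (x : ℝ) : SF.ev (fun k => co (eSi w0) k s) x = 1 / (s : ℝ) := ev_el _ _ s x
theorem v_a (s : S0) (x : ℝ) : SF.ev (fun k => co (eA w0) k s) x = aa s := ev_el _ _ s x

theorem si (f : W L0 w0) (k : ℕ) (s : S0) : co (eSi w0 * f) k s = 1 / (s : ℝ) * co f k s :=
  co_el_mul _ _ f k s

theorem chi_R0 : chi R0 = 0 := by
  rw [Bd.sq_chi]
  exact H55.SQ.ch_of_le (by rw [Bd.sq_R0])

theorem chi1_R0 : chi1 R0 = 0 := by
  rw [Bd.sq_chi1]
  exact H55.SQ.ch1_of_le (by rw [Bd.sq_R0])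

theorem kap_R0 : kap R0 = 0 := by
  unfold kap
  rw [chi_R0, chi1_R0]
  ring

theorem ch_R0 (k : ℕ) : co (eCh w0) k sR = 0 := by
  rw [eCh, co_el_apply]
  split_ifs
  · exact chi_R0
  · rfl

theorem ch1_R0 (k : ℕ) : co (eCh1 w0) k sR = 0 := by
  rw [eCh1, co_el_apply]
  split_ifs
  · exact chi1_R0
  · rfl

theorem eCh_mem : eCh w0 ∈ evnAlg L0 w0 := el_mem _ _
theorem eCh1_mem : eCh1 w0 ∈ evnAlg L0 w0 := el_mem _ _
theorem eKap_mem : eKap w0 ∈ evnAlg L0 w0 := el_mem _ _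
theorem eQ3_mem : eQ3 w0 ∈ evnAlg L0 w0 := el_mem _ _
theorem eP_mem : eP w0 ∈ evnAlg L0 w0 := el_mem _ _
theorem eSi_mem : eSi w0 ∈ evnAlg L0 w0 := el_mem _ _
theorem eA_mem : eA w0 ∈ evnAlg L0 w0 := el_mem _ _

/-! ### the resonant mode -/

theorem c_by : ContinuousOn Bd.by' I0 := fun s hs =>
  (Bd.psol.h2 s (I0_sub hs)).continuousAt.continuousWithinAt

theorem c_bz : ContinuousOn Bd.bz I0 := fun s hs =>
  (Bd.psol.h1 s (I0_sub hs)).continuousAt.continuousWithinAt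

theorem c_bl : ContinuousOn (fun s => -(lam ell / s ^ 2) * Bd.bz s) I0 := by
  refine ContinuousOn.mul ?_ c_bz
  refine ContinuousOn.neg (continuousOn_const.div (continuousOn_id.pow 2) fun s hs => ?_)
  exact pow_ne_zero 2 (ne_of_gt (I0_sub hs))

/-- `y` of the resonant mode -/
noncomputable def eB (w : ℕ → ℝ) : W L0 w := mn w ell (fn Bd.by' c_by)
/-- `z` of the resonant mode -/
noncomputable def eZ (w : ℕ → ℝ) : W L0 w := mn w ell (fn Bd.bz c_bz)
/-- `L z / s ^ 2` of the resonant mode -/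
noncomputable def eL (w : ℕ → ℝ) : W L0 w := mn w ell (fn (fun s => -(lam ell / s ^ 2) * Bd.bz s) c_bl)

section norms

variable {w : ℕ → ℝ} (h1 : 0 < w ell) (h2 : w ell ≤ 10491 / 10000)

include h1 h2

theorem norm_eB : ‖eB w‖ ≤ 109 / 100 := by
  rw [eB, norm_mn _ _ _ h1.le]
  calc w ell * ‖fn Bd.by' c_by‖ ≤ (10491 / 10000) * (10331 / 10000) :=
        mul_le_mul h2 (norm_fn_le _ _ (by norm_num) fun s hs => Bd.abs_by_le hs) (norm_nonneg _)
          (by norm_num)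
    _ ≤ 109 / 100 := by norm_num

theorem norm_eZ : ‖eZ w‖ ≤ 275 / 1000 := by
  rw [eZ, norm_mn _ _ _ h1.le]
  calc w ell * ‖fn Bd.bz c_bz‖ ≤ (10491 / 10000) * (2583 / 10000) :=
        mul_le_mul h2 (norm_fn_le _ _ (by norm_num) fun s hs => Bd.abs_bz_le hs) (norm_nonneg _)
          (by norm_num)
    _ ≤ 275 / 1000 := by norm_num

theorem norm_eL : ‖eL w‖ ≤ 43 / 1000 := by
  rw [eL, norm_mn _ _ _ h1.le]
  have h : ‖fn (fun s => -(lam ell / s ^ 2) * Bd.bz s) c_bl‖ ≤ (1562 / 10000) * (2583 / 10000) := by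
    refine norm_fn_le _ _ (by norm_num) fun s hs => ?_
    have h3 : 0 ≤ Bd.lml / s ^ 2 := div_nonneg Bd.lml_nonneg (sq_nonneg s)
    show |-(Bd.lml / s ^ 2) * Bd.bz s| ≤ _
    rw [abs_mul, abs_neg, abs_of_nonneg h3]
    exact mul_le_mul (Bd.lml_div_le hs) (Bd.abs_bz_le hs) (abs_nonneg _) (by norm_num)
  calc w ell * _ ≤ (10491 / 10000) * ((1562 / 10000) * (2583 / 10000)) :=
        mul_le_mul h2 h (norm_nonneg _) (by norm_num)
    _ ≤ 43 / 1000 := by norm_num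

end norms

theorem base {w w' : ℕ → ℝ} (h : w ell ≠ 0) (h' : w' ell ≠ 0) (k : ℕ) (hk : k ≠ ell) :
    co (eB w) k = 0 ∧ co (eZ w') k = 0 := by
  rw [eB, eZ, co_mn _ _ _ h, co_mn _ _ _ h', if_neg hk]
  exact ⟨rfl, if_neg hk⟩

theorem base' {w w' : ℕ → ℝ} (h : w ell ≠ 0) (h' : w' ell ≠ 0) : ∃ z y : ℝ → ℝ,
    SG.PSol ((ell : ℝ) * (ell + 1)) (fun _ => 0) (fun _ => 0) z y ∧
    (∀ s : S0, z s = co (eZ w') ell s) ∧ (∀ s : S0, y s = co (eB w) ell s) ∧ z rho = 0 ∧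
    y rho = 1 := by
  refine ⟨Bd.bz, Bd.by', Bd.psol, fun s => ?_, fun s => ?_, Bd.bz_rho, Bd.by_rho⟩
  · rw [eZ, co_mn _ _ _ h', if_pos rfl]
    rfl
  · rw [eB, co_mn _ _ _ h, if_pos rfl]
    rfl

theorem lb {w : ℕ → ℝ} (h : w ell ≠ 0) (k : ℕ) (s : S0) :
    co (eL w) k s = -(lam k / (s : ℝ) ^ 2) * co (eZ w) k s := by
  rw [eL, eZ, co_mn _ _ _ h, co_mn _ _ _ h]
  by_cases hk : k = ell
  · subst hk
    rw [if_pos rfl, if_pos rfl]
    rfl
  · rw [if_neg hk, if_neg hk]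
    show (0 : ℝ) = _ * 0
    rw [mul_zero]

theorem eB_mem (w : ℕ → ℝ) : eB w ∈ evn L0 w := mn_mem _ _ _ rfl
theorem eZ_mem' (w : ℕ → ℝ) : eZ w ∈ evn L0 w := mn_mem _ _ _ rfl
theorem eL_mem' (w : ℕ → ℝ) : eL w ∈ evn L0 w := mn_mem _ _ _ rfl
theorem eZ_mem : eZ w0 ∈ evnAlg L0 w0 := eZ_mem' w0
theorem eL_mem : eL w0 ∈ evnAlg L0 w0 := eL_mem' w0

end El

end SF
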