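import Mathlib

/-!
# The nonlinearity of the contact system (first order pair)

`z_s = -y - (κ/2) y²`, `y_s = -2y/s + z + Lz/s² + F2`.
-/

set_option autoImplicit false

namespace H55.SQ

/-- the nonlinearity, in any commutative algebra over `ℝ`: `ch = χ`, `ch1 = χ'`, `p = v₀'`,
`q = v₀'''`, `a = 1 - χ v₀''`, `ka = κ`, `sg = 1/s`, `La = Lz/s²`, `D = y_s`,
`G = (1-x²) y_x²/s²` -/
noncomputable def F2 {B : Type*} [CommRing B] [Algebra ℝ B] (ch ch1 p q a ka sg y z La D G : B) : B :=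
  let e := ch * y
  let η := sg * e
  let d := ch1 * y + ch * D
  (2 * η + η ^ 2) * (-D + q * e + z + p * e) +
    (1 + η) ^ 2 * (d * (z + p * e) - (1 / 2 : ℝ) • ((1 + d) * (a * y * e))) -
    2 * sg * (η + d + η * d) * (a * y + p * η) + d * La + ch * (1 + ka * y) * G

/-- the polynomial `T` equals the linear part plus `s² F2` -/
theorem T_eq (s v0 v1 v2 v3 ch ch1 a ka y ys z Lz Ga : ℝ) (hs : s ≠ 0)
    (h2 : v2 = 1 - v0 - 2 * v1 / s) (h3 : v3 = -v1 - 2 * v2 / s + 2 * v1 / s ^ 2)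
    (ha : a = 1 - ch * v2) :
    (s + ch * y) ^ 2 * (-ys + v3 * (ch * y) + (1 + (ch1 * y + ch * ys)) *
        (z + v1 * (ch * y) - a * y * (ch * y) / 2)) -
      2 * (s + ch * y) * (1 + (ch1 * y + ch * ys)) * (a * y + v1 * (ch * y) / s) +
      (1 + (ch1 * y + ch * ys)) * Lz + ch * (1 + ka * y) * Ga =
    (-s ^ 2 * ys - 2 * s * y + Lz + s ^ 2 * z) +
      s ^ 2 * F2 ch ch1 v1 v3 a ka (1 / s) y z (Lz / s ^ 2) ys (Ga / s ^ 2) := by
  subst ha
  subst h3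
  subst h2
  simp only [F2, smul_eq_mul]
  field_simp
  ring

/-- the polynomial `T` is `r² r_s` times the equation -/
theorem T_eq' (s v0 v1 v2 v3 ch ch1 a ka y ys z Lz Ga r rs v vr As DS : ℝ) (hs : s ≠ 0)
    (h2 : v2 = 1 - v0 - 2 * v1 / s)
    (ha : a = 1 - ch * v2) (hr : r = s + ch * y) (hrs : rs = 1 + (ch1 * y + ch * ys))
    (hr0 : r ≠ 0) (hrs0 : rs ≠ 0)
    (hv : v = v0 + z + v1 * (ch * y) - a * y * (ch * y) / 2)
    (hvr : vr = v1 - a * y) (hAs : As = v2 + (ch1 * v2 + ch * v3) * y - a * ys)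
    (hDS : DS = Lz + ch * (1 + ka * y) * Ga / rs) :
    r ^ 2 * rs * (As / rs + 2 * vr / r + DS / r ^ 2 + v - 1) =
    (s + ch * y) ^ 2 * (-ys + v3 * (ch * y) + (1 + (ch1 * y + ch * ys)) *
        (z + v1 * (ch * y) - a * y * (ch * y) / 2)) -
      2 * (s + ch * y) * (1 + (ch1 * y + ch * ys)) * (a * y + v1 * (ch * y) / s) +
      (1 + (ch1 * y + ch * ys)) * Lz + ch * (1 + ka * y) * Ga := by
  have h1 : r ^ 2 * rs * (As / rs + 2 * vr / r + DS / r ^ 2 + v - 1) =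
      r ^ 2 * As + 2 * r * rs * vr + rs * DS + r ^ 2 * rs * (v - 1) := by
    field_simp
    ring
  have h4 : rs * DS = rs * Lz + ch * (1 + ka * y) * Ga := by
    rw [hDS]; field_simp
  rw [h1, h4]
  subst hv hvr hAs hr hrs ha
  subst h2
  field_simp
  ring

/-- the pair system is equivalent to the equation `T = 0` -/
theorem F2_iff (s v0 v1 v2 v3 ch ch1 a ka y ys z Lz Ga : ℝ) (hs : s ≠ 0)
    (h2 : v2 = 1 - v0 - 2 * v1 / s) (h3 : v3 = -v1 - 2 * v2 / s + 2 * v1 / s ^ 2)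
    (ha : a = 1 - ch * v2)
    (hsys : ys = -2 * y / s + z + Lz / s ^ 2 +
      F2 ch ch1 v1 v3 a ka (1 / s) y z (Lz / s ^ 2) ys (Ga / s ^ 2)) :
    (s + ch * y) ^ 2 * (-ys + v3 * (ch * y) + (1 + (ch1 * y + ch * ys)) *
        (z + v1 * (ch * y) - a * y * (ch * y) / 2)) -
      2 * (s + ch * y) * (1 + (ch1 * y + ch * ys)) * (a * y + v1 * (ch * y) / s) +
      (1 + (ch1 * y + ch * ys)) * Lz + ch * (1 + ka * y) * Ga = 0 := by
  rw [T_eq s v0 v1 v2 v3 ch ch1 a ka y ys z Lz Ga hs h2 h3 ha]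
  have : F2 ch ch1 v1 v3 a ka (1 / s) y z (Lz / s ^ 2) ys (Ga / s ^ 2) =
      ys + 2 * y / s - z - Lz / s ^ 2 := by linear_combination -hsys
  rw [this]
  field_simp
  ring

end H55.SQ
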